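import Pool.Agent.Helper98.CR.NT

/-!
# Reduced and twist-reduced patterns: definitions

Only definitions.
-/

namespace Pool.Agent.Helper77.CR

open Pool.Agent.Helper9.FA (Item labels)
open Pool.Agent.Helper9.TW (Conn)
open Pool.Agent.Helper28.TX (PV)

/-- The pattern in which some vertices are smoothed: `none` keeps the vertex, `some false` replaces
it by two vertical strands, `some true` replaces it by a maximum below and a minimum above. -/
def smo {α : Type} : List (Option Bool) → List (Item α) → List (Item α)
  | _, [] => []
  | f, .cup k :: P => .cup k :: smo f P
  | f, .cap k :: P => .cap k :: smo f P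
  | [], .box k a :: P => .box k a :: smo [] P
  | none :: f, .box k a :: P => .box k a :: smo f P
  | some false :: f, .box _ _ :: P => smo f P
  | some true :: f, .box k _ :: P => .cap k :: .cup k :: smo f P

/-- The pattern is reduced and twist-reduced: it is connected, and it stays connected if one vertex
is replaced by two vertical strands, or if one or two vertices are replaced by a maximum below
and a minimum above. -/
def Red {α : Type} (P : List (Item α)) : Prop :=
  ∀ f : List (Option Bool), f.length = (labels P).length →
    (f.count (some false) = 0 ∧ f.count (some true) ≤ 2 ∨
      f.count (some false) = 1 ∧ f.count (some true) = 0) → Conn (smo f P)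

/-- The strand labels (is there a marked region at one side) are compatible with the smoothing. -/
def AdmS (q : PV Bool) : Option Bool → Prop
  | none => kap q = 0
  | some true => (q.L || q.T) = (q.T || q.R) ∧ (q.L || q.B) = (q.B || q.R)
  | some false => (q.L || q.B) = (q.L || q.T) ∧ (q.B || q.R) = (q.T || q.R)

/-- only the bottom or only the top or only both are marked, or only the left or only the right corner -/
def Bad (q : PV Bool) : Prop :=
  (q.L = false ∧ q.R = false ∧ (q.B || q.T) = true) ∨
    ((q.L ^^ q.R) = true ∧ q.B = false ∧ q.T = false)

/-- exactly two neighbouring corners are marked -/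
def isAdj (q : PV Bool) : Bool := (q.L ^^ q.R) && (q.B ^^ q.T)

end Pool.Agent.Helper77.CR
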