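import Pool.Agent.Helper77.CR.Defs

/-!
# Basic facts on potentials
-/

namespace Pool.Agent.Helper77.CR

open Pool.Agent.Helper9.FA (Item Cor Ang wfP labels)
open Pool.Agent.Helper9.TW (Lab Conn)
open Pool.Agent.Helper28.TX (PV Pot)

variable {α : Type}

theorem pot_edge {K : Type} {P : List (Item α)} {c0 c1 : K} {c : List K} {θ : List (PV K)}
    {e : List (Bool × K × K)} (h : Pot c0 c1 P c θ e) :
    c.head? = some c0 ∧ c.getLast? = some c1 := by
  induction h with
  | nil => simp
  | @cup P l r a m θ e h ih =>
    obtain ⟨h1, h2⟩ := ih
    constructor
    · cases l with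
      | nil => simpa using h1
      | cons x l => simpa using h1
    · cases r with
      | nil => simpa using h2
      | cons x r => simpa using h2
  | @cap P l r a m θ e h ih =>
    obtain ⟨h1, h2⟩ := ih
    constructor
    · cases l with
      | nil => simpa using h1
      | cons x l => simpa using h1
    · cases r with
      | nil => simpa using h2
      | cons x r => simpa using h2
  | @box P l r x q θ e h ih =>
    obtain ⟨h1, h2⟩ := ih
    constructor
    · cases l with
      | nil => simpa using h1
      | cons x l => simpa using h1
    · cases r with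
      | nil => simpa using h2
      | cons x r => simpa using h2

theorem pot_len {K : Type} {P : List (Item α)} {c0 c1 : K} {c : List K} {θ : List (PV K)}
    {e : List (Bool × K × K)} (h : Pot c0 c1 P c θ e) : θ.length = (labels P).length := by
  induction h with
  | nil => rfl
  | cup h ih => exact ih
  | cap h ih => exact ih
  | box h ih => simp [labels, ih]

/-- number of strands at the bottom -/
theorem pot_count {K : Type} {P : List (Item α)} {c0 c1 : K} {c : List K} {θ : List (PV K)}
    {e : List (Bool × K × K)} (h : Pot c0 c1 P c θ e) :
    2 ≤ c.length + 2 * ncap e ∧ c.length + 2 * ncup e = 2 + 2 * ncap e := by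
  induction h with
  | nil => simp [ncap, ncup]
  | cup h ih => simp [ncap, ncup] at ih ⊢; omega
  | cap h ih => simp [ncap, ncup] at ih ⊢; omega
  | box h ih => simp [ncap, ncup] at ih ⊢; omega

theorem pot_wf {K : Type} {P : List (Item α)} {c0 c1 : K} {c : List K} {θ : List (PV K)}
    {e : List (Bool × K × K)} (h : Pot c0 c1 P c θ e) : ∃ n, c.length = n + 1 ∧ wfP n P 1 := by
  induction h with
  | nil => exact ⟨1, rfl, rfl⟩
  | @cup P l r a m θ e h ih =>
    obtain ⟨n, hn, hw⟩ := ih
    simp only [List.length_append, List.length_cons] at hn
    refine ⟨l.length + r.length, by simp; omega, ?_⟩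
    refine ⟨by omega, ?_⟩
    have : n = l.length + r.length + 2 := by omega
    subst this
    exact hw
  | @cap P l r a m θ e h ih =>
    obtain ⟨n, hn, hw⟩ := ih
    simp only [List.length_append, List.length_cons] at hn
    refine ⟨l.length + r.length + 2, by simp; omega, ?_⟩
    refine ⟨by omega, ?_⟩
    have : n = l.length + r.length + 2 - 2 := by omega
    subst this
    exact hw
  | @box P l r x q θ e h ih =>
    obtain ⟨n, hn, hw⟩ := ih
    simp only [List.length_append, List.length_cons] at hn
    refine ⟨l.length + r.length + 2, by simp; omega, ?_⟩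
    refine ⟨by omega, ?_⟩
    have : n = l.length + r.length + 2 := by omega
    subst this
    exact hw

theorem pot_map {K K' : Type} (f : K → K') {P : List (Item α)} {c0 c1 : K} {c : List K}
    {θ : List (PV K)} {e : List (Bool × K × K)} (h : Pot c0 c1 P c θ e) :
    Pot (f c0) (f c1) P (c.map f) (θ.map (PV.map f)) (mE f e) := by
  induction h with
  | nil => exact .nil
  | @cup P l r a m θ e h ih =>
    have h' : Pot (f c0) (f c1) P (l.map f ++ f a :: f m :: f a :: r.map f) (θ.map (PV.map f))
        (mE f e) := by simpa using ih
    have := Pot.cup h'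
    simpa [mE] using this
  | @cap P l r a m θ e h ih =>
    have h' : Pot (f c0) (f c1) P (l.map f ++ f a :: r.map f) (θ.map (PV.map f))
        (mE f e) := by simpa using ih
    have := Pot.cap (m := f m) h'
    simpa [mE] using this
  | @box P l r x q θ e h ih =>
    have h' : Pot (f c0) (f c1) P (l.map f ++ (q.map f).L :: (q.map f).T :: (q.map f).R :: r.map f)
        (θ.map (PV.map f)) (mE f e) := by simpa [PV.map] using ih
    have := Pot.box (x := x) h'
    simpa [PV.map] using this

end Pool.Agent.Helper77.CR
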