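import Pool.Agent.Helper77.CR.BASE
import Pool.Agent.Helper40.CR.UNI
import Pool.Agent.Helper57.CR.CNT
import Pool.Agent.Helper87.CR.STAR
import Pool.Agent.Helper98.CR.HALL
import Pool.Agent.Helper98.CR.AVG
import Pool.Agent.Helper98.CR.POS
import Pool.Agent.Helper61.CR.LIN

/-!
# Reduced and twist-reduced patterns have strict angle assignments
-/

namespace Pool.Agent.Helper77.CR

open Pool.Agent.Helper9.FA (Item Cor Ang wfP labels)
open Pool.Agent.Helper9.TW (Lab Conn)
open Pool.Agent.Helper28.TX (PV Pot)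

variable {α : Type}

lemma wf_inj : ∀ {P : List (Item α)} {n m k : ℕ}, wfP n P k → wfP m P k → n = m := by
  intro P
  induction P with
  | nil => intro n m k h h'; exact h.trans h'.symm
  | cons i P ih =>
    intro n m k h h'
    cases i with
    | cup j =>
      obtain ⟨h1, h2⟩ := h
      obtain ⟨h3, h4⟩ := h'
      have := ih h2 h4
      omega
    | cap j =>
      obtain ⟨h1, h2⟩ := h
      obtain ⟨h3, h4⟩ := h'
      have := ih h2 h4
      omega
    | box j a =>
      obtain ⟨h1, h2⟩ := h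
      obtain ⟨h3, h4⟩ := h'
      exact ih h2 h4

theorem ang_of_red [Inhabited α] {P : List (Item α)} (hP : wfP 1 P 1) (hR : Red P) :
    ∃ cs, Ang P [0, 0] cs ∧ ∀ c ∈ cs, c.Strict := by
  have hc : Conn P := red_conn hR
  obtain ⟨c0, c1, c, θ, e, hU⟩ := exists_uni hP
  have hlen := pot_len hU.pot
  have hcc : c = [c0, c1] := by
    obtain ⟨h1, h2⟩ := pot_edge hU.pot
    obtain ⟨n, hn, hw⟩ := pot_wf hU.pot
    have hn1 : n = 1 := wf_inj hw hP
    subst hn1
    match c, hn with
    | [x, y], _ =>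
      simp at h1 h2
      rw [h1, h2]
  subst hcc
  have hcnt := count_all hc hU
  obtain ⟨us, hF, hus⟩ : ∃ us, FS θ (All c0 c1 θ e) us ∧ ∀ u ∈ us, u.Ok ∧ u.Strict := by
    by_cases hne : θ = []
    · refine ⟨[], ⟨by simp [hne], by simp, ?_⟩, by simp⟩
      intro F
      have : All c0 c1 θ e = ∅ := by
        rw [← Finset.card_eq_zero, hcnt.1, hne]
        rfl
      rw [this]
      simp [fsum, wsumA]
    · exact avg_angles (fun i hi => hall_angles (θ := θ) (S := All c0 c1 θ e) hcnt.1
        (fun R hR' h0 => star hR hU hR' h0) hi) hne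
  have hG : AngG [0, 0] P [0, 0] us := by
    refine angG_of_val hP rfl (by rw [hF.len, hlen]) ?_
    intro k0 k1 c' θ' e' hp
    rw [val_zero hc hU hF hp]
    clear hp
    rcases c' with _ | ⟨x, _ | ⟨y, c'⟩⟩ <;> simp
  exact ⟨us, ang_of_angG default hP hc hU hF (fun u hu => (hus u hu).1) hG,
      fun u hu => (hus u hu).2⟩

end Pool.Agent.Helper77.CR
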