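import Pool.Agent.Helper28.TX.Defs

/-!
# Prime and twist-reduced patterns: definitions

Only definitions.
-/

namespace Pool.Agent.Helper77.CR

open Pool.Agent.Helper9.FA (Item Cor Ang)
open Pool.Agent.Helper28.TX (PV Pot)

/-! ### cuts -/

/-- `Cuts P n τ u`: there is a labelling of the strands of `P` by truth values, with the labels `u` at the
bottom and the label `false` of the strand at the top, with `n` defects.  A defect is a point of a strand
where the label changes, or a vertex whose two lower strands have another label than its two upper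
strands (`split`); apart from this the four strands at a vertex have the same label.  `τ` is the list of
the pairs (label of the lower strands, label of the upper strands) at the vertices. -/
inductive Cuts {α : Type} : List (Item α) → ℕ → List (Bool × Bool) → List Bool → Prop
  | nil : Cuts [] 0 [] [false]
  | cup {P : List (Item α)} {n : ℕ} {τ : List (Bool × Bool)} {l r : List Bool} {s : Bool}
      (h : Cuts P n τ (l ++ s :: s :: r)) : Cuts (.cup l.length :: P) n τ (l ++ r)
  | cap {P : List (Item α)} {n : ℕ} {τ : List (Bool × Bool)} {l r : List Bool} {s : Bool}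
      (h : Cuts P n τ (l ++ r)) : Cuts (.cap l.length :: P) n τ (l ++ s :: s :: r)
  | box {P : List (Item α)} {n : ℕ} {τ : List (Bool × Bool)} {l r : List Bool} {s : Bool} {a : α}
      (h : Cuts P n τ (l ++ s :: s :: r)) :
      Cuts (.box l.length a :: P) n ((s, s) :: τ) (l ++ s :: s :: r)
  | split {P : List (Item α)} {n : ℕ} {τ : List (Bool × Bool)} {l r : List Bool} {s t : Bool} {a : α}
      (h : Cuts P n τ (l ++ s :: s :: r)) :
      Cuts (.box l.length a :: P) (n + 1) ((t, s) :: τ) (l ++ t :: t :: r)
  | jump {P : List (Item α)} {n : ℕ} {τ : List (Bool × Bool)} {l r : List Bool} {s t : Bool}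
      (h : Cuts P n τ (l ++ s :: r)) : Cuts P (n + 1) τ (l ++ t :: r)

/-- The pattern is prime and twist-reduced: for every labelling with at most two defects all strands
at all vertices have the same label.  (Two points on strands: the vertices stay connected if the
pattern is cut at two points.  One or two vertices: the pattern stays connected if the lower and
the upper strands are separated at one or two vertices.) -/
def WC {α : Type} (P : List (Item α)) : Prop :=
  ∀ n τ, n ≤ 2 → Cuts P n τ [false] → ∃ s : Bool, ∀ x ∈ τ, x = (s, s)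

/-! ### universal potentials -/

/-- apply a function -/
def mE {K K' : Type} (f : K → K') (e : List (Bool × K × K)) : List (Bool × K' × K') :=
  e.map fun y => (y.1, f y.2.1, f y.2.2)

/-- the number of minima -/
def ncup {K : Type} (e : List (Bool × K × K)) : ℕ := (e.filter fun y => y.1).length

/-- the number of maxima -/
def ncap {K : Type} (e : List (Bool × K × K)) : ℕ := (e.filter fun y => !y.1).length

/-- the corners of a vertex -/
def cor {K : Type} (q : PV K) : List K := [q.L, q.B, q.R, q.T]

/-- the regions which occur -/
def ids (c : List ℕ) (θ : List (PV ℕ)) (e : List (Bool × ℕ × ℕ)) : Finset ℕ :=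
  (c ++ θ.flatMap cor ++ e.flatMap fun y => [y.2.1, y.2.2]).toFinset

/-- A universal potential: the values are names of the regions. -/
structure Uni {α : Type} (P : List (Item α)) (c0 c1 : ℕ) (c : List ℕ) (θ : List (PV ℕ))
    (e : List (Bool × ℕ × ℕ)) : Prop where
  pot : Pot c0 c1 P c θ e
  uni : ∀ (K : Type) (k0 k1 : K) (c' : List K) (θ' : List (PV K)) (e' : List (Bool × K × K)),
    Pot k0 k1 P c' θ' e' → ∃ h : ℕ → K, h c0 = k0 ∧ h c1 = k1 ∧ c' = c.map h ∧
      θ' = θ.map (PV.map h) ∧ e' = mE h e
  card : 2 + θ.length + ncap e ≤ (ids (c0 :: c1 :: c) θ e).card + ncup e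

/-- the bounded regions -/
def All (c0 c1 : ℕ) (θ : List (PV ℕ)) (e : List (Bool × ℕ × ℕ)) : Finset ℕ :=
  (ids [c0, c1] θ e).filter fun x => x ≠ c0 ∧ x ≠ c1

/-! ### numbers -/

/-- `1` or `0` -/
def bz (b : Bool) : ℤ := if b = true then 1 else 0

/-- Euler characteristic of a union of regions: the number of places where it begins minus the number
of places where two parts of it join, upwards -/
def EU (θ : List (PV Bool)) (e : List (Bool × Bool × Bool)) : ℤ :=
  (θ.map fun q => bz q.T).sum + (e.map fun y => if y.1 = true then bz y.2.2 else -bz y.2.1).sum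

/-- something is `true` -/
def Tru (θ : List (PV Bool)) (e : List (Bool × Bool × Bool)) : Prop :=
  (∃ q ∈ θ, true ∈ cor q) ∨ ∃ y ∈ e, y.2.1 = true ∨ y.2.2 = true

/-- the number of half units of angle which a vertex can give to the marked regions -/
def tw (q : PV Bool) : ℕ := (q.L || q.R || q.B).toNat + (q.L || q.R || q.T).toNat

/-- the number of defects at a vertex -/
def kap (q : PV Bool) : ℕ :=
  if (q.L ^^ q.R) = true then 2 - q.B.toNat - q.T.toNat
  else if q.L = false ∧ (q.B ^^ q.T) = true then 1 else 0

/-- the contribution of a vertex to `EC` -/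
def kc (q : PV Bool) : ℤ := bz (q.B && !q.L && !q.R && !q.T) - bz (q.L && q.R && !q.T)

/-- Euler characteristic of the union of the marked regions, the strands between them and the
bands through the vertices with two opposite marked corners -/
def EC (θ : List (PV Bool)) (e : List (Bool × Bool × Bool)) : ℤ :=
  (θ.map kc).sum +
    (e.map fun y => if y.1 = true then -bz (y.2.1 && !y.2.2) else bz (y.2.2 && !y.2.1)).sum

/-- only the bottom and top corner are marked -/
def BT (q : PV Bool) : Prop := q.L = false ∧ q.R = false ∧ q.B = true ∧ q.T = true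

instance (q : PV Bool) : Decidable (BT q) := by unfold BT; infer_instance

/-- the number of vertices of type `BT` which are marked in `δ` -/
def nBT (δ : List Bool) (θ : List (PV Bool)) : ℕ :=
  (List.zipWith (fun (b : Bool) (q : PV Bool) => if b = true ∧ BT q then 1 else 0) δ θ).sum

/-- the labels of the strands: is there a marked region at one side -/
def ors : List Bool → List Bool
  | a :: b :: t => (a || b) :: ors (b :: t)
  | _ => []

/-- the labels at a vertex -/
def SR (q : PV Bool) (x : Bool × Bool) : Prop :=
  (q.L = false ∧ q.R = false ∧ x = (q.B, q.T)) ∨ ((q.L = true ∨ q.R = true) ∧ x = (true, true)) ∨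
    ((q.L ^^ q.R) = true ∧ q.B = false ∧ q.T = false ∧ x = (false, false))

/-! ### flows -/

/-- Flows: the homogeneous linear equations of the flows of an angle assignment without corners.
The last list contains the flows at both sides of the maxima. -/
inductive Fl {α K : Type} [AddCommGroup K] : List (Item α) → List K → List K → Prop
  | nil : Fl [] [0, 0] []
  | cup {P : List (Item α)} {l r ys : List K} {x y : K} (h : Fl P (l ++ x :: 0 :: y :: r) ys) :
      Fl (.cup l.length :: P) (l ++ (x + y) :: r) ys
  | cap {P : List (Item α)} {l r ys : List K} {x y : K} (h : Fl P (l ++ (x + y) :: r) ys) :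
      Fl (.cap l.length :: P) (l ++ x :: 0 :: y :: r) (x :: y :: ys)
  | box {P : List (Item α)} {l r ys : List K} {x y : K} {a : α}
      (h : Fl P (l ++ x :: 0 :: y :: r) ys) :
      Fl (.box l.length a :: P) (l ++ x :: 0 :: y :: r) ys

/-- the labels of the strands from the flows: partial sums, without the last one -/
def psum : ℝ → List ℝ → List ℝ
  | s, x :: y :: r => (s + x) :: psum (s + x) (y :: r)
  | _, _ => []

/-- The linear conditions of angle assignments, with any flow `t` at the top. -/
inductive AngG {α : Type} (t : List ℝ) : List (Item α) → List ℝ → List (Cor ℝ) → Prop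
  | nil : AngG t [] t []
  | cup {P : List (Item α)} {l r : List ℝ} {a b : ℝ} {cs : List (Cor ℝ)}
      (h : AngG t P (l ++ a :: Real.pi :: b :: r) cs) :
      AngG t (.cup l.length :: P) (l ++ (a + b) :: r) cs
  | cap {P : List (Item α)} {l r : List ℝ} {x a b : ℝ} {cs : List (Cor ℝ)}
      (h : AngG t P (l ++ x :: r) cs) (hab : a + b = x + Real.pi) :
      AngG t (.cap l.length :: P) (l ++ a :: 0 :: b :: r) cs
  | box {P : List (Item α)} {l r : List ℝ} {x y : ℝ} {e : α} {c : Cor ℝ} {cs : List (Cor ℝ)}
      (h : AngG t P (l ++ x :: (Real.pi - c.uT) :: y :: r) cs) :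
      AngG t (.box l.length e :: P) (l ++ (x + c.uL) :: c.uB :: (y + c.uR) :: r) (c :: cs)

/-- the sum of the angles weighted with a potential -/
noncomputable def wsumA (θ : List (PV ℝ)) (us : List (Cor ℝ)) : ℝ :=
  (List.zipWith (fun (q : PV ℝ) (u : Cor ℝ) => q.L * u.uL + q.B * u.uB + q.R * u.uR + q.T * u.uT)
    θ us).sum

/-- the pairing of a potential with the angles -/
noncomputable def val (θ : List (PV ℝ)) (e : List (Bool × ℝ × ℝ)) (us : List (Cor ℝ)) : ℝ :=
  wsumA θ us + Real.pi * (e.map fun y => if y.1 = true then -y.2.2 else y.2.1).sum -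
    Real.pi * (θ.map PV.T).sum

/-- the sum of the angles in the region `F` -/
noncomputable def fsum (F : ℕ) (θ : List (PV ℕ)) (us : List (Cor ℝ)) : ℝ :=
  wsumA (θ.map (PV.map fun x => if x = F then (1 : ℝ) else 0)) us

/-- Angles with the right sums at the vertices and in the regions in `S`, and `0` in the other
regions. -/
structure FS (θ : List (PV ℕ)) (S : Finset ℕ) (us : List (Cor ℝ)) : Prop where
  len : us.length = θ.length
  nn : ∀ u ∈ us, 0 ≤ u.uL ∧ 0 ≤ u.uR ∧ 0 ≤ u.uB ∧ 0 ≤ u.uT ∧
    u.uL + u.uR + u.uB + u.uT = Real.pi ∧ 2 * u.uB ≤ Real.pi ∧ 2 * u.uT ≤ Real.pi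
  face : ∀ F, fsum F θ us = if F ∈ S then Real.pi else 0

end Pool.Agent.Helper77.CR
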